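import Mathlib
import Pool.Agent.Helper446.Comp

/-!
A uniformly computable construction of delayed almost disjoint sets indexed by finite lists of
guesses.
-/

set_option autoImplicit false

namespace Pool.Agent.X43.MD

open Pool.Agent.Helper446.RE Encodable

section tools

variable {α : Type*} [Primcodable α]

@[fun_prop] theorem cdrop {β : Type*} [Primcodable β] {f : α → ℕ} {g : α → List β}
    (hf : Computable f) (hg : Computable g) :
    Computable (fun x => List.drop (f x) (g x)) := Primrec.list_drop.to_comp.comp hf hg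

@[fun_prop] theorem cgetDn {f : α → List ℕ} {g : α → ℕ} (hf : Computable f) (hg : Computable g) :
    Computable (fun x => (f x).getD (g x) 0) := (Primrec.list_getD 0).to_comp.comp hf hg

@[fun_prop] theorem cgetDb {f : α → List Bool} {g : α → ℕ} (hf : Computable f)
    (hg : Computable g) :
    Computable (fun x => (f x).getD (g x) false) := (Primrec.list_getD false).to_comp.comp hf hg

@[fun_prop] theorem cdlt {f g : α → ℕ} (hf : Computable f) (hg : Computable g) :
    Computable (fun x => decide (f x < g x)) := (cp_lt hf hg).decide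

@[fun_prop] theorem cdeq {f g : α → ℕ} (hf : Computable f) (hg : Computable g) :
    Computable (fun x => decide (f x = g x)) := (cp_eq hf hg).decide

theorem call {q : α → ℕ → Bool} {f : α → ℕ} (hq : Computable fun x : α × ℕ => q x.1 x.2)
    (hf : Computable f) : Computable fun a => allB (q a) (f a) :=
  computable_allB (q := q) hq hf

theorem cexi {q : α → ℕ → Bool} {f : α → ℕ} (hq : Computable fun x : α × ℕ => q x.1 x.2)
    (hf : Computable f) : Computable fun a => exB (q a) (f a) :=
  computable_exB (q := q) hq hf

end tools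

/-- The list coded by a number. -/
def lst (n : ℕ) : List ℕ := Denumerable.ofNat (List ℕ) n

theorem lst_encode (L : List ℕ) : lst (encode L) = L := Denumerable.ofNat_encode L

@[fun_prop] theorem clst {α : Type*} [Primcodable α] {f : α → ℕ} (hf : Computable f) :
    Computable (fun x => lst (f x)) := (Computable.ofNat (List ℕ)).comp hf

/-- Lookup in the history. -/
def lk (h : List Bool) (M : List ℕ) (w : ℕ) : Bool := h.getD (Nat.pair (encode M) w) false

@[fun_prop] theorem clk {α : Type*} [Primcodable α] {f : α → List Bool} {g : α → List ℕ}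
    {k : α → ℕ} (hf : Computable f) (hg : Computable g) (hk : Computable k) :
    Computable (fun x => lk (f x) (g x) (k x)) := by
  unfold lk
  fun_prop

/-- The condition imposed by a claimed infinite ancestor `M`. -/
def avoid (a : ℕ → Bool) (x w : ℕ) : Bool :=
  exB (fun v => a v && decide (x < v.unpair.1) &&
    allB (fun u => !(a u) || !(decide (u.unpair.1 = x))) v) w

/-- The condition for `w` to be accepted for `L`, relative to a lookup function. -/
def cnd (a : List ℕ → ℕ → Bool) (L : List ℕ) (w : ℕ) : Bool :=
  wst ℕ L.length w.unpair.2 w.unpair.1 && decide (encode L < w.unpair.1) &&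
  (allB (fun k => !(decide (L.getD k 0 = 0)) || avoid (a (L.drop (k + 1))) w.unpair.1 w)
    L.length &&
  allB (fun u => !(a L u) || decide (u < w.unpair.1)) w)

def step (h : List Bool) (n : ℕ) : Bool := cnd (lk h) (lst n.unpair.1) n.unpair.2

def H : ℕ → List Bool
  | 0 => []
  | n + 1 => H n ++ [step (H n) n]

def F (n : ℕ) : Bool := step (H n) n

theorem H_length (n : ℕ) : (H n).length = n := by
  induction n with
  | zero => rfl
  | succ n ih => simp [H, ih]

theorem H_getD {n m : ℕ} (h : m < n) : (H n).getD m false = F m := by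
  induction n with
  | zero => omega
  | succ n ih =>
    rcases Nat.lt_succ_iff_lt_or_eq.1 h with h1 | rfl
    · rw [H, List.getD_append _ _ _ _ (by rw [H_length]; exact h1)]
      exact ih h1
    · rw [H, List.getD_append_right _ _ _ _ (by rw [H_length])]
      simp [H_length, F]

/-- Acceptance. -/
def acc (L : List ℕ) (w : ℕ) : Bool := F (Nat.pair (encode L) w)

theorem avoid_comp {α : Type*} [Primcodable α] {a : α → ℕ → Bool} {x w : α → ℕ}
    (ha : Computable fun p : α × ℕ => a p.1 p.2) (hx : Computable x) (hw : Computable w) :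
    Computable fun p => avoid (a p) (x p) (w p) := by
  unfold avoid
  have h1 : Computable fun p : (α × ℕ) × ℕ => a p.1.1 p.2 :=
    ha.comp (g := fun p : (α × ℕ) × ℕ => (p.1.1, p.2)) (by fun_prop)
  have h2 : Computable fun p : (α × ℕ) × ℕ => x p.1.1 :=
    hx.comp (g := fun p : (α × ℕ) × ℕ => p.1.1) (by fun_prop)
  have h3 : Computable fun p : (α × ℕ) => x p.1 :=
    hx.comp (g := fun p : (α × ℕ) => p.1) (by fun_prop)
  refine cexi (q := fun p v => a p v && decide (x p < v.unpair.1) &&
    allB (fun u => !(a p u) || !(decide (u.unpair.1 = x p))) v) ?_ hw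
  refine cand (cand ha ?_) ?_
  · exact cdlt h3 (by fun_prop)
  · refine call (q := fun (p : α × ℕ) u => !(a p.1 u) || !(decide (u.unpair.1 = x p.1))) ?_
      (by fun_prop)
    exact cor (cnot h1) (cnot (cdeq (by fun_prop) h2))

theorem cnd_comp {α : Type*} [Primcodable α] {a : α → List ℕ → ℕ → Bool} {L : α → List ℕ}
    {w : α → ℕ} (ha : Computable fun p : α × (List ℕ × ℕ) => a p.1 p.2.1 p.2.2)
    (hL : Computable L) (hw : Computable w) :
    Computable fun p => cnd (a p) (L p) (w p) := by
  unfold cnd
  have hL1 : Computable fun p : α × ℕ => L p.1 :=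
    hL.comp (g := fun p : α × ℕ => p.1) (by fun_prop)
  have hw1 : Computable fun p : α × ℕ => w p.1 :=
    hw.comp (g := fun p : α × ℕ => p.1) (by fun_prop)
  refine cand (cand ?_ ?_) (cand ?_ ?_)
  · exact wst_comp.comp (f := fun p : (ℕ × ℕ) × ℕ => wst ℕ p.1.1 p.1.2 p.2)
      (g := fun p : α => (((L p).length, (w p).unpair.2), (w p).unpair.1)) (by fun_prop)
  · exact cdlt (by fun_prop) (by fun_prop)
  · refine call (q := fun p k => !(decide ((L p).getD k 0 = 0)) ||
      avoid (a p ((L p).drop (k + 1))) (w p).unpair.1 (w p)) ?_ (by fun_prop)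
    refine cor (cnot (cdeq (by fun_prop) (by fun_prop))) ?_
    refine avoid_comp (a := fun (p : α × ℕ) v => a p.1 ((L p.1).drop (p.2 + 1)) v) ?_
      (by fun_prop) (by fun_prop)
    have h1 : Computable fun p : (α × ℕ) × ℕ => L p.1.1 :=
      hL.comp (g := fun p : (α × ℕ) × ℕ => p.1.1) (by fun_prop)
    exact ha.comp (g := fun p : (α × ℕ) × ℕ => (p.1.1, ((L p.1.1).drop (p.1.2 + 1), p.2)))
      (by fun_prop)
  · refine call (q := fun p u => !(a p (L p) u) || decide (u < (w p).unpair.1)) ?_ hw
    refine cor (cnot ?_) (cdlt (by fun_prop) (by fun_prop))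
    exact ha.comp (g := fun p : α × ℕ => (p.1, (L p.1, p.2))) (by fun_prop)

theorem cstep : Computable fun p : List Bool × ℕ => step p.1 p.2 := by
  unfold step
  exact cnd_comp (a := fun p : List Bool × ℕ => lk p.1) (by fun_prop) (by fun_prop) (by fun_prop)

theorem cH : Computable H := by
  have h := Computable.nat_rec (f := fun n : ℕ => n) (g := fun _ : ℕ => ([] : List Bool))
    (h := fun (_ : ℕ) (y : ℕ × List Bool) => y.2 ++ [step y.2 y.1]) Computable.id
    (Computable.const []) ?_
  · refine h.of_eq fun n => ?_
    induction n with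
    | zero => rfl
    | succ n ih => simp only [H]; rw [← ih]
  · have h1 : Computable fun p : ℕ × (ℕ × List Bool) => step p.2.2 p.2.1 :=
      cstep.comp (f := fun p : List Bool × ℕ => step p.1 p.2)
        (g := fun p : ℕ × (ℕ × List Bool) => (p.2.2, p.2.1)) (by fun_prop)
    exact cappend (by fun_prop) (ccons h1 (Computable.const []))

theorem cF : Computable F :=
  cstep.comp (f := fun p : List Bool × ℕ => step p.1 p.2) (g := fun n : ℕ => (H n, n))
    (cH.pair Computable.id)

@[fun_prop] theorem cacc {α : Type*} [Primcodable α] {f : α → List ℕ} {g : α → ℕ}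
    (hf : Computable f) (hg : Computable g) : Computable (fun x => acc (f x) (g x)) := by
  unfold acc
  exact cF.comp (by fun_prop)

/-! ### The recursion satisfied by `acc` -/

theorem encode_drop_le (L : List ℕ) (k : ℕ) : encode (L.drop k) ≤ encode L := by
  induction k generalizing L with
  | zero => simp
  | succ k ih =>
    cases L with
    | nil => simp
    | cons a L =>
      rw [List.drop_succ_cons]
      refine (ih L).trans ?_
      rw [Encodable.encode_list_cons]
      exact (Nat.right_le_pair _ _).trans (Nat.le_succ _)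

theorem avoid_iff (a : ℕ → Bool) (x w : ℕ) : avoid a x w = true ↔
    ∃ v < w, a v = true ∧ x < v.unpair.1 ∧ ∀ u < v, a u = true → u.unpair.1 ≠ x := by
  unfold avoid
  rw [exB_iff]
  refine exists_congr fun v => and_congr_right fun _ => ?_
  simp only [Bool.and_eq_true, allB_iff, decide_eq_true_eq, Bool.or_eq_true, and_assoc]
  refine and_congr_right fun _ => and_congr_right fun _ => forall_congr' fun u =>
    forall_congr' fun _ => ?_
  cases a u <;> simp

theorem avoid_congr {a b : ℕ → Bool} {x w : ℕ} (h : ∀ v < w, a v = b v) :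
    avoid a x w = avoid b x w := by
  have key : avoid a x w = true ↔ avoid b x w = true := by
    rw [avoid_iff, avoid_iff]
    constructor
    · rintro ⟨v, hv, h1, h2, h3⟩
      exact ⟨v, hv, h v hv ▸ h1, h2, fun u hu h4 => h3 u hu ((h u (hu.trans hv)).trans h4)⟩
    · rintro ⟨v, hv, h1, h2, h3⟩
      exact ⟨v, hv, (h v hv).trans h1, h2, fun u hu h4 => h3 u hu ((h u (hu.trans hv)) ▸ h4)⟩
  exact Bool.eq_iff_iff.2 key

/-- The condition for acceptance. -/
structure Cnd (L : List ℕ) (w : ℕ) : Prop where
  c1 : wst ℕ L.length w.unpair.2 w.unpair.1 = true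
  c2 : encode L < w.unpair.1
  c3 : ∀ k < L.length, L.getD k 0 = 0 → ∃ v < w, acc (L.drop (k + 1)) v = true ∧
    w.unpair.1 < v.unpair.1 ∧
    ∀ u < v, acc (L.drop (k + 1)) u = true → u.unpair.1 ≠ w.unpair.1
  c4 : ∀ u < w, acc L u = true → u < w.unpair.1

theorem acc_iff (L : List ℕ) (w : ℕ) : acc L w = true ↔ Cnd L w := by
  have hlk : ∀ M : List ℕ, encode M ≤ encode L → ∀ v < w,
      lk (H (Nat.pair (encode L) w)) M v = acc M v := by
    intro M hM v hv
    unfold lk acc
    exact H_getD (Nat.pair_lt_pair_right (encode M) hv |>.trans_le (by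
      rcases hM.lt_or_eq with h | h
      · exact (Nat.pair_lt_pair_left w h).le
      · rw [h]))
  have h1 : acc L w = cnd (lk (H (Nat.pair (encode L) w))) L w := by
    unfold acc F step
    rw [Nat.unpair_pair, lst_encode]
  rw [h1]
  unfold cnd
  simp only [Bool.and_eq_true, allB_iff, decide_eq_true_eq, Bool.or_eq_true]
  constructor
  · rintro ⟨⟨a1, a2⟩, a3, a4⟩
    refine ⟨a1, a2, fun k hk h0 => ?_, fun u hu h2 => ?_⟩
    · rcases a3 k hk with h3 | h3
      · rw [decide_eq_true h0] at h3
        exact absurd h3 (by decide)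
      · rw [avoid_congr (b := acc (L.drop (k + 1)))
          (fun v hv => hlk _ (encode_drop_le L (k + 1)) v hv), avoid_iff] at h3
        exact h3
    · rcases a4 u hu with h3 | h3
      · rw [hlk L le_rfl u hu, h2] at h3
        simp at h3
      · exact h3
  · rintro ⟨a1, a2, a3, a4⟩
    refine ⟨⟨a1, a2⟩, fun k hk => ?_, fun u hu => ?_⟩
    · by_cases h0 : L.getD k 0 = 0
      · right
        rw [avoid_congr (b := acc (L.drop (k + 1)))
          (fun v hv => hlk _ (encode_drop_le L (k + 1)) v hv), avoid_iff]
        exact a3 k hk h0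
      · left
        rw [decide_eq_false h0]
        rfl
    · rw [hlk L le_rfl u hu]
      cases h3 : acc L u
      · left; rfl
      · right; exact a4 u hu h3

end Pool.Agent.X43.MD
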