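import Mathlib
import Pool.Agent.X43.MD.A

/-!
Combinatorics of the accepted sets.
-/

set_option autoImplicit false

namespace Pool.Agent.X43.MD

open Pool.Agent.Helper446.RE Encodable

/-- The set of accepted numbers is infinite. -/
def Inf (L : List ℕ) : Prop := ∀ N, ∃ w, N ≤ w ∧ acc L w = true

/-- The set of type `L`. -/
def XX (L : List ℕ) : Set ℕ := {x | x = encode L ∨ ∃ w, acc L w = true ∧ w.unpair.1 = x}

theorem acc_lt {L : List ℕ} {u w : ℕ} (hu : acc L u = true) (hw : acc L w = true) (h : u < w) :
    u < w.unpair.1 := ((acc_iff L w).1 hw).c4 u h hu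

theorem acc_mono {L : List ℕ} {u w : ℕ} (hu : acc L u = true) (hw : acc L w = true) (h : u < w) :
    u.unpair.1 < w.unpair.1 := (Nat.unpair_left_le u).trans_lt (acc_lt hu hw h)

theorem Inf.exi {L : List ℕ} (h : Inf L) (N : ℕ) : ∃ w, acc L w = true ∧ N < w.unpair.1 := by
  obtain ⟨u, hu, h1⟩ := h N
  obtain ⟨w, hw, h2⟩ := h (u + 1)
  exact ⟨w, h2, hu.trans_lt (acc_lt h1 h2 (by omega))⟩

theorem inf_of_exi {L : List ℕ} (h : ∀ N, ∃ w, acc L w = true ∧ N < w.unpair.1) : Inf L := by
  intro N
  obtain ⟨w, h1, h2⟩ := h N
  exact ⟨w, (h2.trans_le (Nat.unpair_left_le w)).le, h1⟩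

/-- If infinitely many numbers are accepted for `L`, then ancestors claimed infinite are so. -/
theorem Inf.anc {L : List ℕ} (h : Inf L) {k : ℕ} (hk : k < L.length) (h0 : L.getD k 0 = 0) :
    Inf (L.drop (k + 1)) := by
  refine inf_of_exi fun N => ?_
  obtain ⟨w, h1, h2⟩ := h.exi N
  obtain ⟨v, -, h3, h4, -⟩ := ((acc_iff L w).1 h1).c3 k hk h0
  exact ⟨v, h3, h2.trans h4⟩

/-- Avoidance. -/
theorem disj {L : List ℕ} {k : ℕ} (hk : k < L.length) (h0 : L.getD k 0 = 0) {w u : ℕ}
    (hw : acc L w = true) (hu : acc (L.drop (k + 1)) u = true) : u.unpair.1 ≠ w.unpair.1 := by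
  obtain ⟨v, -, h3, h4, h5⟩ := ((acc_iff L w).1 hw).c3 k hk h0
  rcases lt_trichotomy u v with h | h | h
  · exact h5 u h hu
  · subst h; exact h4.ne'
  · exact (h4.trans (acc_mono h3 hu h)).ne'

/-- Verified and not refuted claims of finiteness. -/
def Cl (L : List ℕ) : Prop := ∀ k < L.length, L.getD k 0 ≠ 0 →
  (∀ t, acc (L.drop (k + 1)) t = true → t + 1 < L.getD k 0) ∧
  (2 ≤ L.getD k 0 → acc (L.drop (k + 1)) (L.getD k 0 - 2) = true)

/-- Splitting of two lists. -/
theorem split (n : ℕ) : ∀ L M : List ℕ, L.length + M.length ≤ n → L ≠ M →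
    (∃ k < M.length, L = M.drop (k + 1)) ∨ (∃ k < L.length, M = L.drop (k + 1)) ∨
    ∃ k < L.length, ∃ j < M.length, L.drop (k + 1) = M.drop (j + 1) ∧
      L.getD k 0 ≠ M.getD j 0 := by
  induction n with
  | zero =>
    intro L M h hne
    exfalso
    apply hne
    rw [List.eq_nil_of_length_eq_zero (by omega : L.length = 0),
      List.eq_nil_of_length_eq_zero (by omega : M.length = 0)]
  | succ n ih =>
    intro L M h hne
    cases L with
    | nil =>
      left
      have hM : M.length ≠ 0 := fun h0 => hne (List.eq_nil_of_length_eq_zero h0).symm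
      refine ⟨M.length - 1, by omega, ?_⟩
      rw [List.drop_of_length_le (by omega)]
    | cons a A =>
      cases M with
      | nil =>
        right; left
        refine ⟨A.length, by simp, ?_⟩
        rw [List.drop_of_length_le (by simp)]
      | cons b B =>
        rcases le_or_gt A.length B.length with hle | hgt
        · -- compare `a :: A` with `B`
          by_cases h1 : a :: A = B
          · left; exact ⟨0, by simp, by simpa using h1⟩
          · by_cases hlen : A.length = B.length
            · by_cases hAB : A = B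
              · right; right
                refine ⟨0, by simp, 0, by simp, by simpa using hAB, ?_⟩
                intro h2
                exact hne (by rw [hAB]; simpa using h2)
              · rcases ih A B (by simp at h; omega) hAB with h2 | h2 | h2
                · obtain ⟨k, hk, h3⟩ := h2
                  have := congrArg List.length h3
                  simp at this; omega
                · obtain ⟨k, hk, h3⟩ := h2
                  have := congrArg List.length h3
                  simp at this; omega
                · obtain ⟨k, hk, j, hj, h3, h4⟩ := h2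
                  right; right
                  exact ⟨k + 1, by simpa using hk, j + 1, by simpa using hj, by simpa using h3,
                    by simpa using h4⟩
            · rcases ih (a :: A) B (by simp at h ⊢; omega) h1 with h2 | h2 | h2
              · obtain ⟨k, hk, h3⟩ := h2
                left
                exact ⟨k + 1, by simpa using hk, by rw [h3, List.drop_succ_cons]⟩
              · obtain ⟨k, hk, h3⟩ := h2
                have := congrArg List.length h3
                simp at this hk; omega
              · obtain ⟨k, hk, j, hj, h3, h4⟩ := h2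
                right; right
                refine ⟨k, hk, j + 1, by simpa using hj, ?_, ?_⟩
                · rw [h3, List.drop_succ_cons]
                · rw [List.getD_cons_succ]; exact h4
        · by_cases h1 : A = b :: B
          · right; left; exact ⟨0, by simp, by simpa using h1.symm⟩
          · rcases ih A (b :: B) (by simp at h ⊢; omega) h1 with h2 | h2 | h2
            · obtain ⟨k, hk, h3⟩ := h2
              have := congrArg List.length h3
              simp at this hk; omega
            · obtain ⟨k, hk, h3⟩ := h2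
              right; left
              exact ⟨k + 1, by simpa using hk, by rw [h3, List.drop_succ_cons]⟩
            · obtain ⟨k, hk, j, hj, h3, h4⟩ := h2
              right; right
              refine ⟨k + 1, by simpa using hk, j, hj, ?_, ?_⟩
              · rw [← h3, List.drop_succ_cons]
              · rw [List.getD_cons_succ]; exact h4

theorem XX_lt {L : List ℕ} {w : ℕ} (h : acc L w = true) : encode L < w.unpair.1 :=
  ((acc_iff L w).1 h).c2

theorem disj_anc {L M : List ℕ} (hM : Inf M) (cL : Cl L) {k : ℕ} (hk : k < L.length)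
    (h : M = L.drop (k + 1)) : (XX L ∩ XX M).Finite := by
  have h0 : L.getD k 0 = 0 := by
    by_contra h0
    obtain ⟨w, hw, h1⟩ := hM (L.getD k 0)
    have := (cL k hk h0).1 w (h ▸ h1)
    omega
  refine (Set.toFinite {encode L, encode M}).subset ?_
  rintro x ⟨h1 | ⟨w, hw, rfl⟩, h2 | ⟨u, hu, h3⟩⟩
  · simp [h1]
  · simp [h1]
  · simp [h2]
  · exact absurd h3 (disj hk h0 hw (h ▸ hu))

theorem not_both {L M : List ℕ} (hL : Inf L) (cL : Cl L) (cM : Cl M) {k j : ℕ}
    (hk : k < L.length) (hj : j < M.length) (h : L.drop (k + 1) = M.drop (j + 1))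
    (hlt : L.getD k 0 < M.getD j 0) : False := by
  by_cases h0 : L.getD k 0 = 0
  · obtain ⟨w, hw, h1⟩ := (hL.anc hk h0) (M.getD j 0)
    rw [h] at h1
    have := (cM j hj (by omega)).1 w h1
    omega
  · have h1 := (cM j hj (by omega)).2 (by omega)
    rw [← h] at h1
    have := (cL k hk h0).1 _ h1
    omega

/-- The sets of two different types are almost disjoint. -/
theorem almost_disjoint {L M : List ℕ} (hne : L ≠ M) (hL : Inf L) (hM : Inf M) (cL : Cl L)
    (cM : Cl M) : (XX L ∩ XX M).Finite := by
  rcases split _ L M le_rfl hne with ⟨k, hk, h⟩ | ⟨k, hk, h⟩ | ⟨k, hk, j, hj, h, h2⟩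
  · rw [Set.inter_comm]
    exact disj_anc hL cM hk h
  · exact disj_anc hM cL hk h
  · exfalso
    rcases lt_or_gt_of_ne h2 with h3 | h3
    · exact not_both hL cL cM hk hj h h3
    · exact not_both hM cM cL hj hk h.symm h3

/-! ### Correct types -/

/-- All claims of the type are correct. -/
def Good (L : List ℕ) : Prop := Cl L ∧ ∀ k < L.length, L.getD k 0 = 0 → Inf (L.drop (k + 1))

theorem exists_entry (M : List ℕ) : ∃ o : ℕ, (o = 0 → Inf M) ∧
    (o ≠ 0 → (∀ t, acc M t = true → t + 1 < o) ∧ (2 ≤ o → acc M (o - 2) = true)) := by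
  by_cases h : Inf M
  · exact ⟨0, fun _ => h, fun h0 => absurd rfl h0⟩
  · unfold Inf at h
    push Not at h
    obtain ⟨N, hN⟩ := h
    by_cases h1 : ∃ t, acc M t = true
    · classical
      have hb : ∀ t, acc M t = true → t ≤ N := by
        intro t ht
        by_contra hcon
        exact hN t (by omega) ht
      obtain ⟨t0, ht0⟩ := h1
      have hm := Nat.findGreatest_spec (P := fun t => acc M t = true) (hb t0 ht0) ht0
      refine ⟨Nat.findGreatest (fun t => acc M t = true) N + 2, fun h => by omega, fun _ =>
        ⟨fun t ht => ?_, fun _ => ?_⟩⟩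
      · have := Nat.le_findGreatest (P := fun t => acc M t = true) (hb t ht) ht
        omega
      · simpa using hm
    · refine ⟨1, fun h => by omega, fun _ => ⟨fun t ht => absurd ⟨t, ht⟩ h1, fun h => by omega⟩⟩

theorem exists_good (e : ℕ) : ∃ L : List ℕ, L.length = e ∧ Good L := by
  induction e with
  | zero => exact ⟨[], rfl, fun k hk => by simp at hk, fun k hk => by simp at hk⟩
  | succ e ih =>
    obtain ⟨L, hL, h1, h2⟩ := ih
    obtain ⟨o, ho1, ho2⟩ := exists_entry L
    refine ⟨o :: L, by simp [hL], fun k hk h0 => ?_, fun k hk h0 => ?_⟩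
    · cases k with
      | zero => simpa using ho2 (by simpa using h0)
      | succ k =>
        rw [List.getD_cons_succ] at h0 ⊢
        rw [List.drop_succ_cons]
        exact h1 k (by simpa using hk) h0
    · cases k with
      | zero => simpa using ho1 (by simpa using h0)
      | succ k =>
        rw [List.getD_cons_succ] at h0
        rw [List.drop_succ_cons]
        exact h2 k (by simpa using hk) h0

theorem Good.drop {L : List ℕ} (h : Good L) (k : ℕ) : Good (L.drop k) := by
  induction k generalizing L with
  | zero => simpa using h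
  | succ k ih =>
    cases L with
    | nil => simpa using h
    | cons a L =>
      rw [List.drop_succ_cons]
      refine ih ⟨fun j hj h0 => ?_, fun j hj h0 => ?_⟩
      · have := h.1 (j + 1) (by simpa using hj) (by rwa [List.getD_cons_succ])
        simpa using this
      · have := h.2 (j + 1) (by simpa using hj) (by rwa [List.getD_cons_succ])
        simpa using this

/-- Maximality, combinatorial form. -/
theorem maximal {e : ℕ} (R : Set ℕ) (hR : R.Infinite)
    (he : ∀ x, x ∈ R ↔ ∃ s, wst ℕ e s x = true) :
    ∃ L, Good L ∧ Inf L ∧ (XX L ∩ R).Infinite := by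
  obtain ⟨L, hL, hG⟩ := exists_good e
  by_cases hI : Inf L
  · refine ⟨L, hG, hI, ?_⟩
    refine Set.infinite_of_not_bddAbove ?_
    rintro ⟨B, hB⟩
    obtain ⟨w, h1, h2⟩ := hI.exi B
    have h3 : w.unpair.1 ∈ XX L ∩ R :=
      ⟨Or.inr ⟨w, h1, rfl⟩, (he _).2 ⟨_, hL ▸ ((acc_iff L w).1 h1).c1⟩⟩
    exact absurd (hB h3) (by omega)
  · by_contra hcon
    push Not at hcon
    have hfin : ∀ k < L.length, L.getD k 0 = 0 → ∃ N, ∀ x ∈ R, N ≤ x →
        ∀ u, acc (L.drop (k + 1)) u = true → u.unpair.1 ≠ x := by
      intro k hk h0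
      have h1 := hcon _ (hG.drop (k + 1)) (hG.2 k hk h0)
      obtain ⟨N, hN⟩ := h1.bddAbove
      refine ⟨N + 1, fun x hx hx2 u hu h2 => ?_⟩
      exact absurd (hN ⟨Or.inr ⟨u, hu, h2⟩, hx⟩) (by omega)
    have hev : ∀ᶠ N in Filter.atTop, ∀ k ∈ Set.Iio L.length, L.getD k 0 = 0 →
        ∀ x ∈ R, N ≤ x → ∀ u, acc (L.drop (k + 1)) u = true → u.unpair.1 ≠ x := by
      refine (Filter.eventually_all_finite (Set.finite_Iio L.length)).2 fun k hk => ?_
      by_cases h0 : L.getD k 0 = 0
      · obtain ⟨N, hN⟩ := hfin k hk h0
        filter_upwards [Filter.eventually_ge_atTop N] with N' hN' _ x hx hx2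
        exact hN x hx (hN'.trans hx2)
      · exact Filter.Eventually.of_forall fun N h1 => absurd h1 h0
    unfold Inf at hI
    push Not at hI
    obtain ⟨B, hB⟩ := hI
    obtain ⟨N, hN⟩ := hev.exists
    obtain ⟨x, hx, hx2⟩ := hR.exists_gt (N + B + encode L)
    obtain ⟨s0, hs0⟩ := (he x).1 hx
    have hev2 : ∀ᶠ s in Filter.atTop, ∀ k ∈ Set.Iio L.length, L.getD k 0 = 0 →
        ∃ v < s, acc (L.drop (k + 1)) v = true ∧ x < v.unpair.1 := by
      refine (Filter.eventually_all_finite (Set.finite_Iio L.length)).2 fun k hk => ?_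
      by_cases h0 : L.getD k 0 = 0
      · obtain ⟨v, h1, h2⟩ := (hG.2 k hk h0).exi x
        filter_upwards [Filter.eventually_gt_atTop v] with s hs _
        exact ⟨v, hs, h1, h2⟩
      · exact Filter.Eventually.of_forall fun N h1 => absurd h1 h0
    obtain ⟨s, hs, hs2⟩ := (hev2.and (Filter.eventually_ge_atTop s0)).exists
    have hacc : acc L (Nat.pair x s) = true := by
      rw [acc_iff]
      refine ⟨?_, ?_, ?_, ?_⟩
      · rw [Nat.unpair_pair, hL]
        exact wst_mono hs2 hs0
      · rw [Nat.unpair_pair]; simp only; omega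
      · intro k hk h0
        obtain ⟨v, h1, h2, h3⟩ := hs k hk h0
        refine ⟨v, h1.trans_le (Nat.right_le_pair x s), h2, by rw [Nat.unpair_pair]; exact h3,
          fun u _ hu => ?_⟩
        rw [Nat.unpair_pair]
        exact hN k hk h0 x hx (by omega) u hu
      · intro u _ hu
        rw [Nat.unpair_pair]
        have : ¬ B ≤ u := fun h => hB u h hu
        simp only; omega
    exact hB _ (by have := Nat.left_le_pair x s; omega) hacc

end Pool.Agent.X43.MD
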