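import Mathlib
import Pool.Agent.X43.MD.B

/-!
The computable tree.
-/

set_option autoImplicit false

namespace Pool.Agent.X43.MD

open Pool.Agent.Helper446.RE Encodable

/-- The conditions on a set with characteristic function `s`, below `n`, for least element `m`. -/
structure Q (s : ℕ → Bool) (n m : ℕ) : Prop where
  a : ∀ k < (lst m).length, (lst m).getD k 0 ≠ 0 →
    (∀ t < n, acc ((lst m).drop (k + 1)) t = true → t + 1 < (lst m).getD k 0) ∧
    (2 ≤ (lst m).getD k 0 → acc ((lst m).drop (k + 1)) ((lst m).getD k 0 - 2) = true)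
  b : ∀ y < n, s y = true → ∀ x < y, m < x → s x = true →
    ∃ w < y, acc (lst m) w = true ∧ w.unpair.1 = x
  c : ∀ y < n, m < y → s y = true → ∀ w < y, acc (lst m) w = true → s w.unpair.1 = true

/-- `m` is the least element. -/
def Least (s : ℕ → Bool) (m : ℕ) : Prop := s m = true ∧ ∀ j < m, s j = false

/-- The tree. -/
def T (σ : List Bool) : Prop :=
  ∀ m < σ.length, Least (fun i => σ.getD i false) m → Q (fun i => σ.getD i false) σ.length m

theorem least_congr {s s' : ℕ → Bool} {n m : ℕ} (h : ∀ i < n, s i = s' i) (hm : m < n) :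
    Least s m ↔ Least s' m := by
  unfold Least
  rw [h m hm]
  refine and_congr_right fun _ => forall_congr' fun j => forall_congr' fun hj => ?_
  rw [h j (hj.trans hm)]

theorem Q_congr {s s' : ℕ → Bool} {n m : ℕ} (h : ∀ i < n, s i = s' i) (hQ : Q s n m) :
    Q s' n m := by
  obtain ⟨a, b, c⟩ := hQ
  refine ⟨a, fun y hy h1 x hx hm h2 => ?_, fun y hy hm h1 w hw h2 => ?_⟩
  · exact b y hy (by rw [h y hy]; exact h1) x hx hm (by rw [h x (hx.trans hy)]; exact h2)
  · have := c y hy hm (by rw [h y hy]; exact h1) w hw h2
    rwa [h _ ((Nat.unpair_left_le w).trans_lt (hw.trans hy))] at this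

theorem Q_mono {s : ℕ → Bool} {n n' m : ℕ} (h : n' ≤ n) (hQ : Q s n m) : Q s n' m := by
  obtain ⟨a, b, c⟩ := hQ
  refine ⟨fun k hk h0 => ⟨fun t ht => (a k hk h0).1 t (ht.trans_le h), (a k hk h0).2⟩,
    fun y hy => b y (hy.trans_le h), fun y hy => c y (hy.trans_le h)⟩

theorem T_prefix {σ τ : List Bool} (h : σ <+: τ) (hT : T τ) : T σ := by
  obtain ⟨ρ, rfl⟩ := h
  have hs : ∀ i < σ.length, (σ ++ ρ).getD i false = σ.getD i false := fun i hi =>
    List.getD_append _ _ _ _ hi
  intro m hm hl
  have h1 := hT m (by simp; omega) ((least_congr hs hm).2 hl)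
  exact Q_congr hs (Q_mono (by simp) h1)

/-! ### Computability -/

def Qb (s : List Bool) (m : ℕ) : Bool :=
  allB (fun k => decide ((lst m).getD k 0 = 0) ||
    (allB (fun t => !(acc ((lst m).drop (k + 1)) t) || decide (t + 1 < (lst m).getD k 0))
      s.length &&
    (decide ((lst m).getD k 0 < 2) || acc ((lst m).drop (k + 1)) ((lst m).getD k 0 - 2))))
    (lst m).length &&
  (allB (fun y => !(s.getD y false) || allB (fun x => !(decide (m < x)) || (!(s.getD x false) ||
    exB (fun w => acc (lst m) w && decide (w.unpair.1 = x)) y)) y) s.length &&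
  allB (fun y => !(decide (m < y)) || (!(s.getD y false) ||
    allB (fun w => !(acc (lst m) w) || s.getD w.unpair.1 false) y)) s.length)

theorem Qb_iff (s : List Bool) (m : ℕ) :
    Qb s m = true ↔ Q (fun i => s.getD i false) s.length m := by
  unfold Qb
  simp only [Bool.and_eq_true, allB_iff, exB_iff, decide_eq_true_eq, Bool.or_eq_true,
    Bool.not_eq_true', decide_eq_false_iff_not]
  constructor
  · rintro ⟨a, b, c⟩
    refine ⟨fun k hk h0 => ⟨fun t ht h1 => ?_, fun h1 => ?_⟩, fun y hy h1 x hx hm h2 => ?_,
      fun y hy hm h1 w hw h2 => ?_⟩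
    · rcases a k hk with h2 | ⟨h2, -⟩
      · exact absurd h2 h0
      · rcases h2 t ht with h3 | h3
        · rw [h1] at h3; exact absurd h3 (by decide)
        · exact h3
    · rcases a k hk with h2 | ⟨-, h2⟩
      · exact absurd h2 h0
      · rcases h2 with h3 | h3
        · omega
        · exact h3
    · rcases b y hy with h3 | h3
      · rw [h1] at h3; exact absurd h3 (by decide)
      · rcases h3 x hx with h4 | h4 | h4
        · exact absurd hm h4
        · rw [h2] at h4; exact absurd h4 (by decide)
        · exact h4
    · rcases c y hy with h3 | h3 | h3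
      · exact absurd hm h3
      · rw [h1] at h3; exact absurd h3 (by decide)
      · rcases h3 w hw with h4 | h4
        · rw [h2] at h4; exact absurd h4 (by decide)
        · exact h4
  · rintro ⟨a, b, c⟩
    refine ⟨fun k hk => ?_, fun y hy => ?_, fun y hy => ?_⟩
    · by_cases h0 : (lst m).getD k 0 = 0
      · exact Or.inl h0
      · refine Or.inr ⟨fun t ht => ?_, ?_⟩
        · cases h1 : acc ((lst m).drop (k + 1)) t
          · left; rfl
          · right; exact (a k hk h0).1 t ht h1
        · by_cases h1 : (lst m).getD k 0 < 2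
          · left; exact h1
          · right; exact (a k hk h0).2 (by omega)
    · cases h1 : s.getD y false
      · left; rfl
      · right
        intro x hx
        by_cases hm : m < x
        · right
          cases h2 : s.getD x false
          · left; rfl
          · right; exact b y hy h1 x hx hm h2
        · left; exact hm
    · by_cases hm : m < y
      · right
        cases h1 : s.getD y false
        · left; rfl
        · right
          intro w hw
          cases h2 : acc (lst m) w
          · left; rfl
          · right; exact c y hy hm h1 w hw h2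
      · left; exact hm

theorem cQb : Computable fun p : List Bool × ℕ => Qb p.1 p.2 := by
  unfold Qb
  refine cand ?_ (cand ?_ ?_)
  · refine call (q := fun (p : List Bool × ℕ) k => decide ((lst p.2).getD k 0 = 0) ||
      (allB (fun t => !(acc ((lst p.2).drop (k + 1)) t) || decide (t + 1 < (lst p.2).getD k 0))
        p.1.length &&
      (decide ((lst p.2).getD k 0 < 2) ||
        acc ((lst p.2).drop (k + 1)) ((lst p.2).getD k 0 - 2)))) ?_ (by fun_prop)
    refine cor (cdeq (by fun_prop) (by fun_prop)) (cand ?_ ?_)
    · refine call (q := fun (x : (List Bool × ℕ) × ℕ) t =>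
        !(acc ((lst x.1.2).drop (x.2 + 1)) t) || decide (t + 1 < (lst x.1.2).getD x.2 0)) ?_
        (by fun_prop)
      exact cor (by fun_prop) (cdlt (by fun_prop) (by fun_prop))
    · exact cor (cdlt (by fun_prop) (by fun_prop)) (by fun_prop)
  · refine call (q := fun (p : List Bool × ℕ) y => !(p.1.getD y false) ||
      allB (fun x => !(decide (p.2 < x)) || (!(p.1.getD x false) ||
        exB (fun w => acc (lst p.2) w && decide (w.unpair.1 = x)) y)) y) ?_ (by fun_prop)
    refine cor (by fun_prop) ?_
    refine call (q := fun (z : (List Bool × ℕ) × ℕ) x => !(decide (z.1.2 < x)) ||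
      (!(z.1.1.getD x false) ||
        exB (fun w => acc (lst z.1.2) w && decide (w.unpair.1 = x)) z.2)) ?_ (by fun_prop)
    refine cor (cnot (cdlt (by fun_prop) (by fun_prop))) (cor (by fun_prop) ?_)
    refine cexi (q := fun (v : ((List Bool × ℕ) × ℕ) × ℕ) w =>
      acc (lst v.1.1.2) w && decide (w.unpair.1 = v.2)) ?_ (by fun_prop)
    exact cand (by fun_prop) (cdeq (by fun_prop) (by fun_prop))
  · refine call (q := fun (p : List Bool × ℕ) y => !(decide (p.2 < y)) ||
      (!(p.1.getD y false) ||
        allB (fun w => !(acc (lst p.2) w) || p.1.getD w.unpair.1 false) y)) ?_ (by fun_prop)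
    refine cor (cnot (cdlt (by fun_prop) (by fun_prop))) (cor (by fun_prop) ?_)
    refine call (q := fun (z : (List Bool × ℕ) × ℕ) w => !(acc (lst z.1.2) w) ||
      z.1.1.getD w.unpair.1 false) ?_ (by fun_prop)
    exact cor (by fun_prop) (by fun_prop)

def Tb (σ : List Bool) : Bool :=
  allB (fun m => !(σ.getD m false && allB (fun j => !(σ.getD j false)) m) || Qb σ m) σ.length

theorem Tb_iff (σ : List Bool) : Tb σ = true ↔ T σ := by
  unfold Tb T
  rw [allB_iff]
  refine forall_congr' fun m => forall_congr' fun hm => ?_
  rw [Bool.or_eq_true, Qb_iff]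
  have h1 : (σ.getD m false && allB (fun j => !(σ.getD j false)) m) = true ↔
      Least (fun i => σ.getD i false) m := by
    unfold Least
    rw [Bool.and_eq_true, allB_iff]
    refine and_congr_right fun _ => forall_congr' fun j => forall_congr' fun _ => ?_
    simp only
    cases σ.getD j false <;> simp
  rw [← h1]
  cases (σ.getD m false && allB (fun j => !(σ.getD j false)) m) <;> simp

theorem cT : ComputablePred T := by
  have h : Computable Tb := by
    unfold Tb
    refine call (q := fun (σ : List Bool) m =>
      !(σ.getD m false && allB (fun j => !(σ.getD j false)) m) || Qb σ m) ?_ (by fun_prop)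
    refine cor (cnot (cand (by fun_prop) ?_)) cQb
    refine call (q := fun (p : List Bool × ℕ) j => !(p.1.getD j false)) ?_ (by fun_prop)
    fun_prop
  exact (ComputablePred.computable_iff.2 ⟨Tb, h, rfl⟩).of_eq fun σ => Tb_iff σ

end Pool.Agent.X43.MD
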